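import Pool.Agent.U892.PD.Stm

set_option autoImplicit false

/-! Project PD, package FULL: a compact leaf contained in an ellipse is the whole ellipse. -/

namespace Pool.Agent.U354.PD

open Filter Topology Set
open scoped ContDiff
open Pool.Agent.U892.PD

noncomputable section

/-- the derivative of the quadratic polynomial -/
def D (R : Fin 6 → ℝ) (p e : ℝ × ℝ) : ℝ :=
  (R 1 + 2 * R 3 * p.1 + R 4 * p.2) * e.1 + (R 2 + R 4 * p.1 + 2 * R 5 * p.2) * e.2

/-- the quadratic part -/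
def qf (R : Fin 6 → ℝ) (e : ℝ × ℝ) : ℝ := R 3 * e.1 ^ 2 + R 4 * (e.1 * e.2) + R 5 * e.2 ^ 2

lemma quad_add (R : Fin 6 → ℝ) (p e : ℝ × ℝ) (t : ℝ) :
    quad R (p + t • e) = quad R p + t * D R p e + t ^ 2 * qf R e := by
  unfold quad D qf
  simp only [Prod.fst_add, Prod.snd_add, Prod.smul_fst, Prod.smul_snd, smul_eq_mul]
  ring

lemma R3_ne {R : Fin 6 → ℝ} (hd : R 4 ^ 2 < 4 * R 3 * R 5) : R 3 ≠ 0 := by
  intro h0
  rw [h0] at hd
  nlinarith [sq_nonneg (R 4)]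

lemma qf_ne {R : Fin 6 → ℝ} (hd : R 4 ^ 2 < 4 * R 3 * R 5) {e : ℝ × ℝ} (he : e ≠ 0) :
    qf R e ≠ 0 := by
  intro h
  have h1 : (2 * R 3 * e.1 + R 4 * e.2) ^ 2 + (4 * R 3 * R 5 - R 4 ^ 2) * e.2 ^ 2 = 0 := by
    have : (2 * R 3 * e.1 + R 4 * e.2) ^ 2 + (4 * R 3 * R 5 - R 4 ^ 2) * e.2 ^ 2 =
        4 * R 3 * qf R e := by unfold qf; ring
    rw [this, h, mul_zero]
  have h2 : e.2 = 0 := by
    by_contra h0
    have h3 : 0 < (4 * R 3 * R 5 - R 4 ^ 2) * e.2 ^ 2 := mul_pos (by linarith) (by positivity)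
    nlinarith [sq_nonneg (2 * R 3 * e.1 + R 4 * e.2)]
  have h3 := R3_ne hd
  have h4 : e.1 = 0 := by
    rw [h2] at h1
    have h5 : (2 * R 3 * e.1) ^ 2 = 0 := by linarith
    have h6 : 2 * R 3 * e.1 = 0 := by simpa using h5
    have h7 : (2 * R 3) ≠ 0 := by simpa using h3
    exact (mul_eq_zero.1 h6).resolve_left h7
  exact he (Prod.ext h4 h2)

/-- the leaf meets all lines near to a transversal line -/
lemma stepA {Ω : Set (ℝ × ℝ)} {F : ℝ × ℝ → ℝ} (hF : Foliation Ω F) {p : ℝ × ℝ} (hp : p ∈ Ω)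
    {e : ℝ × ℝ} (he : 0 < fderiv ℝ F p e) {U : Set (ℝ × ℝ)} (hU : U ∈ 𝓝 p) {η : ℝ} (hη : 0 < η) :
    ∀ᶠ p' in 𝓝 p, ∃ t : ℝ, |t| < η ∧ p' + t • e ∈ U ∧ F (p' + t • e) = F p := by
  have hO : U ∩ Ω ∈ 𝓝 p := inter_mem hU (hF.isOpen.mem_nhds hp)
  have hcont : Tendsto (fun z : (ℝ × ℝ) × ℝ => z.1 + z.2 • e) (𝓝 (p, 0)) (𝓝 p) := by
    have : Continuous (fun z : (ℝ × ℝ) × ℝ => z.1 + z.2 • e) := by fun_prop
    have h := this.tendsto (p, 0)
    simpa using h
  obtain ⟨ε, hε, hball⟩ := Metric.eventually_nhds_iff.1 (hcont hO)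
  have hin : ∀ p' : ℝ × ℝ, dist p' p < ε → ∀ t : ℝ, |t| < ε → p' + t • e ∈ U ∩ Ω := by
    intro p' h1 t h2
    have : dist ((p', t) : (ℝ × ℝ) × ℝ) (p, 0) < ε := by
      rw [Prod.dist_eq]
      exact max_lt h1 (by simpa [Real.dist_eq] using h2)
    exact hball this
  -- the derivative along `e`
  have hd : HasDerivAt (fun t : ℝ => F (p + t • e)) (fderiv ℝ F p e) 0 := by
    have h1 : HasFDerivAt F (fderiv ℝ F p) (p + (0 : ℝ) • e) := by
      rw [zero_smul, add_zero]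
      exact ((hF.smooth p hp).differentiableAt (by norm_num)).hasFDerivAt
    have h2 : HasDerivAt (fun t : ℝ => p + t • e) e 0 := by
      have := ((hasDerivAt_id (0 : ℝ)).smul_const e).const_add p
      simpa using this
    exact h1.comp_hasDerivAt (0 : ℝ) h2
  rw [hasDerivAt_iff_tendsto_slope] at hd
  have hs : ∀ᶠ t in 𝓝[≠] (0 : ℝ), 0 < slope (fun t : ℝ => F (p + t • e)) 0 t :=
    hd.eventually (lt_mem_nhds he)
  rw [eventually_nhdsWithin_iff] at hs
  obtain ⟨ρ, hρ, hs⟩ := Metric.eventually_nhds_iff.1 hs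
  set t1 := min (min η ε) ρ / 2 with ht1
  have hm : 0 < min (min η ε) ρ := lt_min (lt_min hη hε) hρ
  have h1 : 0 < t1 := by positivity
  have h2 : t1 < η := by
    have : min (min η ε) ρ ≤ η := (min_le_left _ _).trans (min_le_left _ _)
    linarith
  have h3 : t1 < ε := by
    have : min (min η ε) ρ ≤ ε := (min_le_left _ _).trans (min_le_right _ _)
    linarith
  have h4 : t1 < ρ := by
    have : min (min η ε) ρ ≤ ρ := min_le_right _ _
    linarith
  have up : F p < F (p + t1 • e) := by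
    have := hs (y := t1) (by simpa [Real.dist_eq, abs_of_pos h1] using h4) (by simpa using h1.ne')
    rw [slope_def_field, zero_smul, add_zero, sub_zero] at this
    have h5 := (div_pos_iff_of_pos_right h1).1 this
    linarith
  have dn : F (p + (-t1) • e) < F p := by
    have := hs (y := -t1) (by simpa [Real.dist_eq, abs_of_pos h1] using h4)
      (by simpa using h1.ne')
    rw [slope_def_field, zero_smul, add_zero, sub_zero, div_neg, ← neg_div] at this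
    have h5 := (div_pos_iff_of_pos_right h1).1 this
    linarith
  have cont : ∀ p' : ℝ × ℝ, dist p' p < ε → ∀ t : ℝ, |t| < ε → ContinuousAt F (p' + t • e) :=
    fun p' h5 t h6 => (hF.smooth _ (hin p' h5 t h6).2).continuousAt
  have tr : ∀ t : ℝ, Tendsto (fun p' : ℝ × ℝ => p' + t • e) (𝓝 p) (𝓝 (p + t • e)) := by
    intro t
    have : Continuous (fun p' : ℝ × ℝ => p' + t • e) := by fun_prop
    exact this.tendsto p
  have ev1 : ∀ᶠ p' in 𝓝 p, F p < F (p' + t1 • e) := by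
    have h5 := (cont p (by simpa using hε) t1 (by rwa [abs_of_pos h1])).tendsto.comp (tr t1)
    exact h5.eventually (lt_mem_nhds up)
  have ev2 : ∀ᶠ p' in 𝓝 p, F (p' + (-t1) • e) < F p := by
    have h5 := (cont p (by simpa using hε) (-t1) (by rwa [abs_neg, abs_of_pos h1])).tendsto.comp
      (tr (-t1))
    exact h5.eventually (gt_mem_nhds dn)
  have ev3 : ∀ᶠ p' in 𝓝 p, dist p' p < ε := Metric.ball_mem_nhds p hε
  filter_upwards [ev1, ev2, ev3] with p' g1 g2 g3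
  have hco : ContinuousOn (fun t : ℝ => F (p' + t • e)) (Icc (-t1) t1) := by
    intro t ht
    have h5 : |t| < ε := lt_of_le_of_lt (abs_le.2 ht) h3
    refine ContinuousAt.continuousWithinAt ?_
    have h6 : ContinuousAt (fun t : ℝ => p' + t • e) t := by fun_prop
    exact ContinuousAt.comp (f := fun t : ℝ => p' + t • e) (cont p' g3 t h5) h6
  obtain ⟨t, ht, hFt⟩ := intermediate_value_Icc (by linarith) hco ⟨g2.le, g1.le⟩
  have h5 : |t| ≤ t1 := abs_le.2 ht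
  exact ⟨t, by linarith, (hin p' g3 t (by linarith)).1, hFt⟩

lemma leaf_nhds {Ω : Set (ℝ × ℝ)} {F : ℝ × ℝ → ℝ} {K : Set (ℝ × ℝ)} {c : ℝ}
    (hK : CompactLeaf Ω F K c) {p : ℝ × ℝ} (hp : p ∈ K) : {p' | F p' = c → p' ∈ K} ∈ 𝓝 p :=
  hK.isOpen p hp

lemma ex_pos {F : ℝ × ℝ → ℝ} {p : ℝ × ℝ} (hreg : fderiv ℝ F p ≠ 0) :
    ∃ e, 0 < fderiv ℝ F p e := by
  obtain ⟨e1, he1⟩ : ∃ e, fderiv ℝ F p e ≠ 0 := by
    by_contra h0
    push Not at h0
    apply hreg
    ext1 <;>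
    · ext
      simp only [ContinuousLinearMap.comp_apply]
      exact h0 _
  rcases lt_or_gt_of_ne he1 with h3 | h3
  · refine ⟨-e1, ?_⟩
    rw [map_neg]; linarith
  · exact ⟨e1, h3⟩

lemma stepB {Ω : Set (ℝ × ℝ)} {F : ℝ × ℝ → ℝ} (hF : Foliation Ω F) {K : Set (ℝ × ℝ)} {c : ℝ}
    (hK : CompactLeaf Ω F K c) {R : Fin 6 → ℝ} (hd : R 4 ^ 2 < 4 * R 3 * R 5)
    (hR : ∀ p ∈ K, quad R p = 0) {p : ℝ × ℝ} (hp : p ∈ K) : ∃ e, D R p e ≠ 0 := by
  by_contra hcon
  push Not at hcon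
  have hreg := hF.regular p (hK.sub hp)
  obtain ⟨e, he⟩ := ex_pos hreg
  have hev := stepA hF (hK.sub hp) he (leaf_nhds hK hp) one_pos
  have he0 : e ≠ 0 := by
    rintro rfl
    simp at he
  -- a point next to `p` which is not on the line
  have hline : Tendsto (fun τ : ℝ => p + τ • ((-e.2, e.1) : ℝ × ℝ)) (𝓝[>] 0) (𝓝 p) := by
    have : Continuous (fun τ : ℝ => p + τ • ((-e.2, e.1) : ℝ × ℝ)) := by fun_prop
    have h := this.tendsto 0
    rw [zero_smul, add_zero] at h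
    exact h.mono_left nhdsWithin_le_nhds
  obtain ⟨τ, hτ1, hτ2⟩ := ((hline.eventually hev).and self_mem_nhdsWithin).exists
  obtain ⟨t, -, h1, h2⟩ := hτ1
  have hτ : 0 < τ := hτ2
  have hc : F p = c := hK.level p hp
  have h3 := h1 (h2.trans hc)
  have h4 := hR _ h3
  have h5 : p + τ • ((-e.2, e.1) : ℝ × ℝ) + t • e =
      p + (1 : ℝ) • (τ • ((-e.2, e.1) : ℝ × ℝ) + t • e) := by
    rw [one_smul, add_assoc]
  rw [h5, quad_add, hcon, hR p hp] at h4
  have h6 : qf R (τ • ((-e.2, e.1) : ℝ × ℝ) + t • e) = 0 := by linarith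
  refine qf_ne hd ?_ h6
  intro h7
  have h8 := congrArg Prod.fst h7
  have h9 := congrArg Prod.snd h7
  simp only [Prod.fst_add, Prod.snd_add, Prod.smul_fst, Prod.smul_snd, smul_eq_mul, Prod.fst_zero,
    Prod.snd_zero] at h8 h9
  have h10 : τ * (e.1 ^ 2 + e.2 ^ 2) = 0 := by linear_combination (-e.2) * h8 + e.1 * h9
  have h11 : 0 < e.1 ^ 2 + e.2 ^ 2 := by
    by_contra h0
    have h12 : e.1 = 0 := by nlinarith [sq_nonneg e.1, sq_nonneg e.2]
    have h13 : e.2 = 0 := by nlinarith [sq_nonneg e.1, sq_nonneg e.2]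
    exact he0 (Prod.ext h12 h13)
  have : 0 < τ * (e.1 ^ 2 + e.2 ^ 2) := mul_pos hτ h11
  linarith

lemma D_add (R : Fin 6 → ℝ) (p e e' : ℝ × ℝ) : D R p (e + e') = D R p e + D R p e' := by
  unfold D
  simp only [Prod.fst_add, Prod.snd_add]
  ring

lemma D_neg (R : Fin 6 → ℝ) (p e : ℝ × ℝ) : D R p (-e) = -D R p e := by
  unfold D
  simp only [Prod.fst_neg, Prod.snd_neg]
  ring

lemma stepC {Ω : Set (ℝ × ℝ)} {F : ℝ × ℝ → ℝ} (hF : Foliation Ω F) {K : Set (ℝ × ℝ)} {c : ℝ}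
    (hK : CompactLeaf Ω F K c) {R : Fin 6 → ℝ} (hd : R 4 ^ 2 < 4 * R 3 * R 5)
    (hR : ∀ p ∈ K, quad R p = 0) {p : ℝ × ℝ} (hp : p ∈ K) :
    ∃ e, 0 < fderiv ℝ F p e ∧ D R p e ≠ 0 := by
  obtain ⟨e2, he2⟩ := stepB hF hK hd hR hp
  have hreg := hF.regular p (hK.sub hp)
  obtain ⟨e1, he1⟩ : ∃ e, fderiv ℝ F p e ≠ 0 := by
    by_contra h0
    push Not at h0
    apply hreg
    ext1 <;>
    · ext
      simp only [ContinuousLinearMap.comp_apply]
      exact h0 _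
  have : ∃ e, fderiv ℝ F p e ≠ 0 ∧ D R p e ≠ 0 := by
    by_cases h1 : D R p e1 = 0
    · by_cases h2 : fderiv ℝ F p e2 = 0
      · refine ⟨e1 + e2, ?_, ?_⟩
        · rw [map_add, h2, add_zero]; exact he1
        · rw [D_add, h1, zero_add]; exact he2
      · exact ⟨e2, h2, he2⟩
    · exact ⟨e1, he1, h1⟩
  obtain ⟨e, h1, h2⟩ := this
  rcases lt_or_gt_of_ne h1 with h3 | h3
  · refine ⟨-e, ?_, ?_⟩
    · rw [map_neg]; linarith
    · rw [D_neg]; exact neg_ne_zero.2 h2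
  · exact ⟨e, h3, h2⟩

lemma stepD {Ω : Set (ℝ × ℝ)} {F : ℝ × ℝ → ℝ} (hF : Foliation Ω F) {K : Set (ℝ × ℝ)} {c : ℝ}
    (hK : CompactLeaf Ω F K c) {R : Fin 6 → ℝ} (hd : R 4 ^ 2 < 4 * R 3 * R 5)
    (hR : ∀ p ∈ K, quad R p = 0) {p : ℝ × ℝ} (hp : p ∈ K) :
    ∀ᶠ p' in 𝓝 p, quad R p' = 0 → p' ∈ K := by
  obtain ⟨e, he, hD⟩ := stepC hF hK hd hR hp
  have hD0 : 0 < |D R p e| := abs_pos.2 hD
  set η := |D R p e| / 2 / (|qf R e| + 1) with hη
  have hη0 : 0 < η := by positivity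
  have hev := stepA hF (hK.sub hp) he (leaf_nhds hK hp) hη0
  have hDc : ∀ᶠ p' in 𝓝 p, |D R p e| / 2 < |D R p' e| := by
    have h1 : Continuous (fun p' : ℝ × ℝ => |D R p' e|) := by
      unfold D
      fun_prop
    exact (h1.tendsto p).eventually (lt_mem_nhds (by linarith))
  filter_upwards [hev, hDc, leaf_nhds hK hp] with p' h1 h2 h3 h4
  obtain ⟨t, ht, h5, h6⟩ := h1
  have hc : F p = c := hK.level p hp
  have h7 := hR _ (h5 (h6.trans hc))
  rw [quad_add, h4, zero_add] at h7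
  have h8 : t = 0 := by
    by_contra h0
    have h9 : D R p' e + t * qf R e = 0 := by
      have : t * (D R p' e + t * qf R e) = 0 := by linear_combination h7
      exact (mul_eq_zero.1 this).resolve_left h0
    have h10 : |D R p' e| = |t| * |qf R e| := by
      rw [← abs_mul, ← abs_neg]
      congr 1
      linarith
    have h11 : |t| * |qf R e| ≤ η * (|qf R e| + 1) := by
      have := abs_nonneg (qf R e)
      have := abs_nonneg t
      nlinarith
    have h12 : η * (|qf R e| + 1) = |D R p e| / 2 := by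
      rw [hη]
      have := abs_nonneg (qf R e)
      field_simp
    linarith
  rw [h8, zero_smul, add_zero] at h6
  exact h3 (h6.trans hc)

/-- parametrisation of the ellipse -/
lemma param {R : Fin 6 → ℝ} (hd : R 4 ^ 2 < 4 * R 3 * R 5) {p₀ : ℝ × ℝ} (h0 : quad R p₀ = 0) :
    ∃ γ : ℝ → ℝ × ℝ, Continuous γ ∧ (∀ θ, quad R (γ θ) = 0) ∧ ∀ p, quad R p = 0 → ∃ θ, γ θ = p := by
  have h3 := R3_ne hd
  set d := 4 * R 3 * R 5 - R 4 ^ 2 with hdd
  have hd0 : 0 < d := by linarith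
  set y0 := (R 1 * R 4 - 2 * R 3 * R 2) / d with hy0
  set M := d * y0 ^ 2 - (4 * R 3 * R 0 - R 1 ^ 2) with hM
  have hy : d * y0 = R 1 * R 4 - 2 * R 3 * R 2 := by
    rw [hy0]; field_simp
  have key : ∀ p : ℝ × ℝ, 4 * R 3 * quad R p =
      (2 * R 3 * p.1 + R 4 * p.2 + R 1) ^ 2 + d * (p.2 - y0) ^ 2 - M := by
    intro p
    unfold quad
    rw [hM]
    have e1 : d * (p.2 - y0) ^ 2 - (d * y0 ^ 2 - (4 * R 3 * R 0 - R 1 ^ 2)) =
        d * p.2 ^ 2 - 2 * (d * y0) * p.2 + (4 * R 3 * R 0 - R 1 ^ 2) := by ring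
    rw [add_sub_assoc, e1, hy, hdd]
    ring
  have hM0 : 0 ≤ M := by
    have := key p₀
    rw [h0, mul_zero] at this
    have h5 : 0 ≤ (2 * R 3 * p₀.1 + R 4 * p₀.2 + R 1) ^ 2 := sq_nonneg _
    have h6 : 0 ≤ d * (p₀.2 - y0) ^ 2 := by positivity
    linarith
  have hs0 : 0 < √d := Real.sqrt_pos.2 hd0
  have hs : √d ^ 2 = d := Real.sq_sqrt hd0.le
  refine ⟨fun θ => ((√M * Real.cos θ - R 1 - R 4 * (y0 + √M * Real.sin θ / √d)) / (2 * R 3),
    y0 + √M * Real.sin θ / √d), ?_, ?_, ?_⟩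
  · fun_prop
  · intro θ
    have h5 := key ((√M * Real.cos θ - R 1 - R 4 * (y0 + √M * Real.sin θ / √d)) / (2 * R 3),
      y0 + √M * Real.sin θ / √d)
    have h6 : 2 * R 3 * ((√M * Real.cos θ - R 1 - R 4 * (y0 + √M * Real.sin θ / √d)) / (2 * R 3)) +
        R 4 * (y0 + √M * Real.sin θ / √d) + R 1 = √M * Real.cos θ := by
      field_simp
      ring
    have h7 : d * (y0 + √M * Real.sin θ / √d - y0) ^ 2 = M * Real.sin θ ^ 2 := by
      rw [add_sub_cancel_left, div_pow, mul_pow, hs, Real.sq_sqrt hM0]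
      field_simp
    dsimp only at h5
    rw [h6, h7, mul_pow, Real.sq_sqrt hM0] at h5
    have h8 : 4 * R 3 * quad R ((√M * Real.cos θ - R 1 - R 4 * (y0 + √M * Real.sin θ / √d)) /
        (2 * R 3), y0 + √M * Real.sin θ / √d) = 0 := by
      rw [h5]
      linear_combination M * Real.sin_sq_add_cos_sq θ
    have h9 : 4 * R 3 ≠ 0 := by simpa using h3
    exact (mul_eq_zero.1 h8).resolve_left h9
  · intro p hp
    have h5 := key p
    rw [hp, mul_zero] at h5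
    set z : ℂ := ⟨2 * R 3 * p.1 + R 4 * p.2 + R 1, √d * (p.2 - y0)⟩ with hz
    have hn : ‖z‖ = √M := by
      rw [Complex.norm_def, Complex.normSq_apply]
      congr 1
      rw [hz]
      dsimp only
      have : √d * (p.2 - y0) * (√d * (p.2 - y0)) = √d ^ 2 * (p.2 - y0) ^ 2 := by ring
      rw [this, hs]
      linarith
    have hc := Complex.norm_mul_cos_arg z
    have hsn := Complex.norm_mul_sin_arg z
    rw [hn] at hc hsn
    refine ⟨Complex.arg z, ?_⟩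
    dsimp only
    rw [hc, hsn]
    have h6 : y0 + z.im / √d = p.2 := by
      rw [hz]
      dsimp only
      field_simp
      ring
    rw [h6]
    refine Prod.ext ?_ rfl
    rw [hz]
    dsimp only
    field_simp
    ring

theorem t_FULL : S_FULL := by
  intro Ω F hF K c hK R hd hR
  obtain ⟨p₀, hp₀⟩ := hK.conn.nonempty
  obtain ⟨γ, hγ, h1, h2⟩ := param hd (hR p₀ hp₀)
  have hcl : IsClopen (γ ⁻¹' K) := by
    refine ⟨hK.compact.isClosed.preimage hγ, ?_⟩
    rw [isOpen_iff_mem_nhds]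
    intro θ hθ
    have := hγ.continuousAt.eventually (stepD hF hK hd hR hθ)
    filter_upwards [this] with θ' h3
    exact h3 (h1 θ')
  have hne : (γ ⁻¹' K).Nonempty := by
    obtain ⟨θ, hθ⟩ := h2 p₀ (hR p₀ hp₀)
    exact ⟨θ, by rw [mem_preimage, hθ]; exact hp₀⟩
  have huniv := hcl.eq_univ hne
  refine Subset.antisymm (fun p hp => hR p hp) ?_
  intro p hp
  obtain ⟨θ, rfl⟩ := h2 p hp
  have : θ ∈ γ ⁻¹' K := by rw [huniv]; trivial
  exact this

end

end Pool.Agent.U354.PD
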